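import Mathlib
import Pool.Agent.H29.AI1

namespace Pool.Agent.Results.MP_e9f532_co.Exponent
open Finset Pool.Agent.H29.AI1

/-- `I(A)`: the sets that are the intersection of two different members of `A` -/
def inters {n : ℕ} (A : Finset (Finset (Fin n))) : Finset (Finset (Fin n)) :=
  univ.filter (fun B => ∃ X ∈ A, ∃ Y ∈ A, X ≠ Y ∧ B = X ∩ Y)

/-- `f(n)`: the maximum of `|I(A)|` over antichains `A` of subsets of an `n`-set -/
def f (n : ℕ) : ℕ :=
  (univ.filter (fun A : Finset (Finset (Fin n)) => ∀ X ∈ A, ∀ Y ∈ A, ¬ X ⊂ Y)).sup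
    (fun A => (inters A).card)

lemma upper (n : ℕ) (hn : 2 ≤ n) : (f n : ℝ) ≤ 2 ^ n - (2 : ℝ) ^ ((n : ℝ) / 2) := by
  obtain ⟨A, hA, e⟩ := exists_mem_eq_sup
    (univ.filter (fun A : Finset (Finset (Fin n)) => ∀ X ∈ A, ∀ Y ∈ A, ¬ X ⊂ Y))
    ⟨∅, by simp⟩ (fun A => (inters A).card)
  rw [f, e]
  have hA := (mem_filter.1 hA).2
  have h1 : (inters A).card + A.card ≤ 2 ^ n := by
    rw [← card_union_of_disjoint]
    · simpa using card_le_univ (inters A ∪ A)
    · rw [disjoint_left]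
      intro B hB hB'
      obtain ⟨X, hX, Y, hY, hne, rfl⟩ := (mem_filter.1 hB).2
      have a : X ∩ Y = X := by
        by_contra h; exact hA _ hB' _ hX (ssubset_of_subset_of_ne inter_subset_left h)
      have b : X ∩ Y = Y := by
        by_contra h; exact hA _ hB' _ hY (ssubset_of_subset_of_ne inter_subset_right h)
      exact hne (a.symm.trans b)
  have h2 : (inters A).card ≤ A.card.choose 2 := by
    rw [← card_powersetCard]
    refine le_trans (card_le_card ?_) (card_image_le (f := fun P => P.inf id))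
    intro B hB
    obtain ⟨X, hX, Y, hY, hne, rfl⟩ := (mem_filter.1 hB).2
    refine mem_image.2 ⟨{X, Y}, mem_powersetCard.2 ⟨?_, card_pair hne⟩, by simp⟩
    intro Z hZ
    rcases mem_insert.1 hZ with rfl | hZ
    · exact hX
    · rw [mem_singleton.1 hZ]; exact hY
  have h3 : ((inters A).card : ℝ) ≤ (A.card : ℝ) ^ 2 / 2 := by
    have : ((inters A).card : ℝ) ≤ (A.card.choose 2 : ℕ) := by exact_mod_cast h2
    rw [Nat.cast_choose_two] at this
    have : (0 : ℝ) ≤ A.card := by positivity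
    nlinarith
  have h4 : ((inters A).card : ℝ) + A.card ≤ 2 ^ n := by exact_mod_cast h1
  have h5 : ((2 : ℝ) ^ ((n : ℝ) / 2)) ^ 2 = 2 ^ n := by
    rw [← Real.rpow_natCast, ← Real.rpow_mul (by norm_num), ← Real.rpow_natCast]
    congr 1; push_cast; ring
  have h6 : (2 : ℝ) ≤ (2 : ℝ) ^ ((n : ℝ) / 2) := by
    have : (2 : ℝ) ≤ n := by exact_mod_cast hn
    calc (2 : ℝ) = 2 ^ (1 : ℝ) := by simp
      _ ≤ _ := Real.rpow_le_rpow_of_exponent_le (by norm_num) (by linarith)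
  generalize (2 : ℝ) ^ ((n : ℝ) / 2) = y at *
  by_cases h : y ≤ A.card
  · linarith
  · have : (A.card : ℝ) ^ 2 ≤ y ^ 2 := pow_le_pow_left₀ (by positivity) (by linarith) 2
    nlinarith

lemma lower (K n : ℕ) (hK : 1 ≤ K) (hn : 2 ^ (K * (2 * K ^ 2 + 1)) ≤ n) :
    2 ^ n ≤ f n + (K * (2 * K ^ 2 + 1) * 2) * (2 ^ ((n + 2 ^ (K * (2 * K ^ 2 + 1))) / 2) *
      (univ.filter (fun S : Finset (Fin n) => S.card ≤ 8 * (n / K + 1))).card) := by
  have hc : Fintype.card (Fin K × Fin (2 * K ^ 2 + 1)) = K * (2 * K ^ 2 + 1) := by simp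
  obtain ⟨π, hq⟩ := exists_pi (ι := Fin K × Fin (2 * K ^ 2 + 1)) n
  have q1 : 2 ^ Fintype.card (Fin K × Fin (2 * K ^ 2 + 1)) *
      (n / 2 ^ Fintype.card (Fin K × Fin (2 * K ^ 2 + 1)) + 1) ≤ n + 2 ^ (K * (2 * K ^ 2 + 1)) := by
    rw [hc, mul_add, mul_one]
    exact Nat.add_le_add_right (Nat.mul_div_le _ _) _
  have cov := cover π (fun k => k.1.val) _ (n / K + 1) K hq
    (by rw [Fintype.card_fin]; omega) (Nat.le_add_left _ _)
    (by rw [Fintype.card_fin]; exact (Nat.lt_mul_div_succ n (by omega)).le) hK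
    (by
      intro τ hτ
      have : (univ : Finset (Fin (2 * K ^ 2 + 1))).card ≤
          (univ.filter (fun k : Fin K × Fin (2 * K ^ 2 + 1) => k.1.val = τ)).card := by
        apply card_le_card_of_injOn (fun i => (⟨τ, hτ⟩, i))
        · intro i _; simp
        · intro i _ j _ h; simpa using h
      rw [card_univ, Fintype.card_fin] at this
      omega)
  have bad := bad_le π (8 * (n / K + 1)) ((n + 2 ^ (K * (2 * K ^ 2 + 1))) / 2) (fun k b => by
    have := core_le π _ hq k b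
    omega)
  rw [hc] at bad
  set F := fam π (fun k => k.1.val) (n / K + 1)
  have anti : ∀ X ∈ F.image compl, ∀ Y ∈ F.image compl, ¬ X ⊂ Y := by
    intro X hX Y hY h
    obtain ⟨C, hC, rfl⟩ := mem_image.1 hX
    obtain ⟨D, hD, rfl⟩ := mem_image.1 hY
    have := fam_anti _ _ _ D hD C hC (compl_subset_compl.1 h.subset)
    subst this
    exact h.ne rfl
  have h1 : (inters (F.image compl)).card ≤ f n :=
    le_sup (f := fun A => (inters A).card) (mem_filter.2 ⟨mem_univ _, anti⟩)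
  have h2 : (univ.filter (fun U : Finset (Fin n) => ¬ ∃ j c, cnt π U j c ≤ 8 * (n / K + 1))).card
      ≤ (inters (F.image compl)).card := by
    apply card_le_card_of_injOn compl
    · intro U hU
      simp only [coe_filter, mem_univ, true_and, Set.mem_ofPred_eq, not_exists, not_le] at hU
      obtain ⟨C, hC, D, hD, hne, rfl⟩ := cov U hU
      exact mem_filter.2 ⟨mem_univ _, Cᶜ, mem_image_of_mem _ hC, Dᶜ, mem_image_of_mem _ hD,
        fun h => hne (compl_injective h), compl_union _ _⟩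
    · exact compl_injective.injOn
  have h3 := card_filter_add_card_filter_not (s := univ)
    (fun U : Finset (Fin n) => ∃ j c, cnt π U j c ≤ 8 * (n / K + 1))
  rw [card_univ, Fintype.card_finset, Fintype.card_fin] at h3
  omega

theorem result (ε : ℝ) (hε : 0 < ε) : ∃ N : ℕ, ∀ n ≥ N,
    (2 : ℝ) ^ ((n : ℝ) / 2) ≤ 2 ^ n - (f n : ℝ) ∧
      2 ^ n - (f n : ℝ) ≤ (2 : ℝ) ^ ((1 / 2 + ε) * n) := by
  set a : ℝ := 2 ^ (ε / 3) with ha
  have a1 : 1 < a := Real.one_lt_rpow (by norm_num) (by linarith)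
  set x : ℝ := min 1 (a - 1) with hx
  have x0 : 0 < x := lt_min one_pos (by linarith)
  have x1 : x ≤ 1 := min_le_left _ _
  have xa : 1 + x ≤ a := by linarith [min_le_right 1 (a - 1)]
  obtain ⟨K0, hK0⟩ := pow_unbounded_of_one_lt (1 / x ^ 8) a1
  set K := K0 + 1 with hK
  have hK1 : 1 / x ^ 8 ≤ a ^ K := hK0.le.trans (pow_le_pow_right₀ a1.le (by omega))
  set r := K * (2 * K ^ 2 + 1) with hr
  obtain ⟨N0, hN0⟩ := pow_unbounded_of_one_lt (((r * 2 : ℕ) : ℝ) * 2 ^ (2 ^ r) * a ^ K) a1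
  refine ⟨max (max N0 2) (2 ^ r), fun n hn => ?_⟩
  have n1 : N0 ≤ n := by omega
  have n2 : 2 ≤ n := by omega
  have n3 : 2 ^ r ≤ n := by omega
  refine ⟨by linarith [upper n n2], ?_⟩
  have l := lower K n (by omega) n3
  rw [← hr] at l
  set M := (univ.filter (fun S : Finset (Fin n) => S.card ≤ 8 * (n / K + 1))).card
  have l' : (2 : ℝ) ^ n ≤ f n + ((r * 2 : ℕ) : ℝ) * (2 ^ ((n + 2 ^ r) / 2) * M) := by
    exact_mod_cast l
  have m1 := small_le (V := Fin n) (8 * (n / K + 1)) x x0 x1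
  rw [Fintype.card_fin] at m1
  have m2 : (M : ℝ) ≤ a ^ n * (a ^ n * a ^ K) := by
    have e1 : (M : ℝ) = (M * x ^ (8 * (n / K + 1))) * (1 / x ^ 8) ^ (n / K + 1) := by
      rw [pow_mul, mul_assoc, ← mul_pow, mul_one_div_cancel (by positivity), one_pow, mul_one]
    have e2 : (1 / x ^ 8) ^ (n / K + 1) ≤ a ^ n * a ^ K := by
      refine (pow_le_pow_left₀ (by positivity) hK1 _).trans ?_
      rw [← pow_mul, ← pow_add]
      apply pow_le_pow_right₀ a1.le
      rw [mul_add, mul_one]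
      exact Nat.add_le_add_right (Nat.mul_div_le _ _) _
    rw [e1]
    exact mul_le_mul (m1.trans (pow_le_pow_left₀ (by positivity) xa n)) e2 (by positivity)
      (by positivity)
  have m3 : (2 : ℝ) ^ ((n + 2 ^ r) / 2) ≤ 2 ^ ((n : ℝ) / 2) * 2 ^ (2 ^ r) := by
    have : (n + 2 ^ r) / 2 ≤ n / 2 + 2 ^ r := by
      have : 0 < 2 ^ r := by positivity
      omega
    refine (pow_le_pow_right₀ (by norm_num) this).trans ?_
    rw [pow_add]
    apply mul_le_mul_of_nonneg_right _ (by positivity)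
    rw [← Real.rpow_natCast]
    exact Real.rpow_le_rpow_of_exponent_le (by norm_num) Nat.cast_div_le
  have m4 : ((r * 2 : ℕ) : ℝ) * 2 ^ (2 ^ r) * a ^ K ≤ a ^ n :=
    hN0.le.trans (pow_le_pow_right₀ a1.le n1)
  have m5 : (2 : ℝ) ^ ((1 / 2 + ε) * n) = 2 ^ ((n : ℝ) / 2) * (a ^ n * a ^ n * a ^ n) := by
    rw [ha, ← Real.rpow_natCast, ← Real.rpow_mul (by norm_num), ← Real.rpow_add (by norm_num),
      ← Real.rpow_add (by norm_num), ← Real.rpow_add (by norm_num)]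
    congr 1; ring
  have m6 : ((r * 2 : ℕ) : ℝ) * (2 ^ ((n + 2 ^ r) / 2) * M)
      ≤ ((r * 2 : ℕ) : ℝ) * ((2 ^ ((n : ℝ) / 2) * 2 ^ (2 ^ r)) * (a ^ n * (a ^ n * a ^ K))) := by
    gcongr
  have m7 : ((r * 2 : ℕ) : ℝ) * ((2 ^ ((n : ℝ) / 2) * 2 ^ (2 ^ r)) * (a ^ n * (a ^ n * a ^ K)))
      = 2 ^ ((n : ℝ) / 2) * (a ^ n * a ^ n * (((r * 2 : ℕ) : ℝ) * 2 ^ (2 ^ r) * a ^ K)) := by ring
  have m8 : 2 ^ ((n : ℝ) / 2) * (a ^ n * a ^ n * (((r * 2 : ℕ) : ℝ) * 2 ^ (2 ^ r) * a ^ K))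
      ≤ (2 : ℝ) ^ ((n : ℝ) / 2) * (a ^ n * a ^ n * a ^ n) := by gcongr
  linarith

end Pool.Agent.Results.MP_e9f532_co.Exponent
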